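import Pool.Agent.Helper26.HB.Goals

/-! Packet HB-A1: the path expansion of `ζ`. -/

set_option autoImplicit false

namespace Pool.Agent.Helper50.HB

open Pool.Agent.Helper26.HB

/-- a bilinear form on `ℝ^d` is bounded -/
lemma bil_bound {d : ℕ} (B : Bil d) : ∃ C : ℝ, 0 ≤ C ∧ ∀ x y, |B x y| ≤ C * ‖x‖ * ‖y‖ := by
  classical
  refine ⟨∑ i, ∑ j, |B (fun k => if i = k then 1 else 0) (fun k => if j = k then 1 else 0)|,
    Finset.sum_nonneg fun i _ => Finset.sum_nonneg fun j _ => abs_nonneg _, fun x y => ?_⟩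
  have h : B x y = ∑ i, ∑ j, x i * (y j * B (fun k => if i = k then 1 else 0)
      (fun k => if j = k then 1 else 0)) := by
    conv_lhs => rw [LinearMap.pi_apply_eq_sum_univ B x]
    rw [LinearMap.sum_apply]
    refine Finset.sum_congr rfl fun i _ => ?_
    rw [LinearMap.smul_apply]
    conv_lhs => rw [LinearMap.pi_apply_eq_sum_univ (B (fun k => if i = k then 1 else 0)) y]
    rw [Finset.smul_sum]
    refine Finset.sum_congr rfl fun j _ => ?_
    simp [smul_eq_mul]
  rw [h, Finset.sum_mul, Finset.sum_mul]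
  refine (Finset.abs_sum_le_sum_abs _ _).trans (Finset.sum_le_sum fun i _ => ?_)
  rw [Finset.sum_mul, Finset.sum_mul]
  refine (Finset.abs_sum_le_sum_abs _ _).trans (Finset.sum_le_sum fun j _ => ?_)
  rw [abs_mul, abs_mul]
  have hx : |x i| ≤ ‖x‖ := by simpa using norm_le_pi_norm x i
  have hy : |y j| ≤ ‖y‖ := by simpa using norm_le_pi_norm y j
  have h1 : |x i| * |y j| ≤ ‖x‖ * ‖y‖ := mul_le_mul hx hy (abs_nonneg _) (norm_nonneg _)
  calc |x i| * (|y j| * |B (fun k => if i = k then 1 else 0) (fun k => if j = k then 1 else 0)|)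
      = |B (fun k => if i = k then 1 else 0) (fun k => if j = k then 1 else 0)|
        * (|x i| * |y j|) := by ring
    _ ≤ |B (fun k => if i = k then 1 else 0) (fun k => if j = k then 1 else 0)|
        * (‖x‖ * ‖y‖) := mul_le_mul_of_nonneg_left h1 (abs_nonneg _)
    _ = _ := by ring

/-- summation by parts -/
lemma abel {d : ℕ} (B : Bil d) (n D : ℕ → E d) (M : ℕ) :
    ∑ j ∈ Finset.range M, B (n j) (D (j + 1) - D j)
      = B (n M) (D M) - B (n 0) (D 0)
        - ∑ j ∈ Finset.range M, B (n (j + 1) - n j) (D (j + 1)) := by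
  induction M with
  | zero => simp
  | succ M ih =>
    rw [Finset.sum_range_succ, Finset.sum_range_succ, ih]
    simp only [map_sub, LinearMap.sub_apply]
    ring

theorem gA1 : G_A1 := by
  intro G _ S N _ _ d π B ζ hD F hF
  classical
  obtain ⟨r, hr, hr1⟩ : ∃ r : G ⧸ N → G,
      (∀ q, (QuotientGroup.mk (r q) : G ⧸ N) = q) ∧ r 1 = 1 := by
    refine ⟨Function.update Quotient.out 1 1, fun q => ?_, by simp⟩
    by_cases hq : q = 1
    · subst hq; simp
    · rw [Function.update_of_ne hq]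
      exact Quotient.out_eq q
  have : Fintype (G ⧸ N) := Fintype.ofFinite _
  have hν : ∀ g : G, g * (r (QuotientGroup.mk g))⁻¹ ∈ N := by
    intro g
    rw [← QuotientGroup.eq_one_iff, QuotientGroup.mk_mul, QuotientGroup.mk_inv, hr]
    exact mul_inv_cancel _
  let ν : G → N := fun g => ⟨g * (r (QuotientGroup.mk g))⁻¹, hν g⟩
  have hνv : ∀ g, ((ν g : N) : G) = g * (r (QuotientGroup.mk g))⁻¹ := fun g => rfl
  have hF' : ∀ g, F g = π (ν g) + F (r (QuotientGroup.mk g)) := by
    intro g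
    rw [← hF (ν g) (r (QuotientGroup.mk g)), hνv, inv_mul_cancel_right]
  have hπ1 : π 1 = 0 := by
    have := hD.hom 1 1
    rw [mul_one] at this
    simpa using this
  have hζ1 : ζ 1 = 0 := by
    have := hD.zeta 1 1
    rw [mul_one, hπ1] at this
    simp at this
    exact this
  -- bounds
  obtain ⟨CB, hCB0, hCB⟩ := bil_bound B
  obtain ⟨CD, hCD0, hCD⟩ : ∃ CD : ℝ, 0 ≤ CD ∧ ∀ g : G, ‖F (r (QuotientGroup.mk g))‖ ≤ CD :=
    ⟨∑ q : G ⧸ N, ‖F (r q)‖, Finset.sum_nonneg fun _ _ => norm_nonneg _,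
      fun g => Finset.single_le_sum (f := fun q : G ⧸ N => ‖F (r q)‖)
        (fun _ _ => norm_nonneg _) (Finset.mem_univ (QuotientGroup.mk g))⟩
  obtain ⟨Cz, hCz0, hCz⟩ : ∃ C : ℝ, 0 ≤ C ∧ ∀ (q q' : G ⧸ N), ∀ s ∈ S, ∀ y : N,
      (y : G) = r q * s * (r q')⁻¹ → |ζ y| ≤ C ∧ ‖π y‖ ≤ C := by
    let Φ : G → ℝ := fun x => if h : x ∈ N then |ζ ⟨x, h⟩| + ‖π ⟨x, h⟩‖ else 0
    have hΦ : ∀ x, 0 ≤ Φ x := by
      intro x
      simp only [Φ]
      split_ifs
      · positivity
      · exact le_rfl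
    let Y : Finset G := ((Finset.univ : Finset (G ⧸ N)) ×ˢ S ×ˢ
      (Finset.univ : Finset (G ⧸ N))).image (fun t => r t.1 * t.2.1 * (r t.2.2)⁻¹)
    refine ⟨∑ x ∈ Y, Φ x, Finset.sum_nonneg fun x _ => hΦ x, fun q q' s hs y hy => ?_⟩
    have hmem : (y : G) ∈ Y := by
      rw [hy]
      refine Finset.mem_image.2 ⟨(q, s, q'), ?_, rfl⟩
      simp [hs]
    have h1 : Φ (y : G) ≤ ∑ x ∈ Y, Φ x :=
      Finset.single_le_sum (f := Φ) (fun x _ => hΦ x) hmem
    have h2 : Φ (y : G) = |ζ y| + ‖π y‖ := by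
      simp only [Φ]
      rw [dif_pos y.2]
    rw [h2] at h1
    exact ⟨by linarith [norm_nonneg (π y)], by linarith [abs_nonneg (ζ y)]⟩
  refine ⟨Cz + (CB * (CD + ‖F 1‖) * (Cz + 2 * CD) + CB * Cz * CD + CB * Cz * CD) / 2, ?_⟩
  intro p M g hp0 hp hpM
  -- sequences
  set n : ℕ → E d := fun j => π (ν (p j)) with hn
  set D : ℕ → E d := fun j => F (r (QuotientGroup.mk (p j))) with hDd
  have hFj : ∀ j, F (p j) = n j + D j := fun j => hF' (p j)
  let c : ℕ → N := fun j => (ν (p j))⁻¹ * ν (p (j + 1))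
  have hc : ∀ j, ν (p (j + 1)) = ν (p j) * c j := by intro j; simp [c]
  have hπc : ∀ j, π (c j) = n (j + 1) - n j := by
    intro j
    have := hD.hom (ν (p j)) (c j)
    rw [← hc] at this
    rw [hn]
    simp only
    rw [this]; simp
  have hζc : ∀ j, ζ (ν (p (j + 1))) - ζ (ν (p j)) = ζ (c j) + B (n j) (n (j + 1) - n j) / 2 := by
    intro j
    have := hD.zeta (ν (p j)) (c j)
    rw [← hc, hπc] at this
    rw [this]; ring
  have hcb : ∀ j < M, |ζ (c j)| ≤ Cz ∧ ‖n (j + 1) - n j‖ ≤ Cz := by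
    intro j hj
    rw [← hπc]
    refine hCz (QuotientGroup.mk (p j)) (QuotientGroup.mk (p (j + 1))) _ (hp j hj) (c j) ?_
    simp only [c, Subgroup.coe_mul, Subgroup.coe_inv, hνv]
    group
  have hν0 : ν (p 0) = 1 := by
    apply Subtype.ext
    rw [hνv, hp0]
    simp [hr1]
  have hνM : ν (p M) = g := by
    apply Subtype.ext
    rw [hνv, hpM]
    have : (QuotientGroup.mk (g : G) : G ⧸ N) = 1 := (QuotientGroup.eq_one_iff _).2 g.2
    rw [this, hr1]; simp
  have hn0 : n 0 = 0 := by rw [hn]; simp only; rw [hν0, hπ1]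
  have hζg : ζ g = ∑ j ∈ Finset.range M, (ζ (c j) + B (n j) (n (j + 1) - n j) / 2) := by
    have h1 := Finset.sum_range_sub (fun j => ζ (ν (p j))) M
    rw [hνM, hν0, hζ1, sub_zero] at h1
    rw [← h1]
    exact Finset.sum_congr rfl fun j _ => hζc j
  have hnM : ∀ m ≤ M, ‖n m‖ ≤ m * Cz := by
    intro m
    induction m with
    | zero => intro _; rw [hn0]; simp
    | succ m ih =>
      intro hm
      have h1 := ih (by omega)
      have h2 := (hcb m (by omega)).2
      have h3 : ‖n (m + 1)‖ ≤ ‖n (m + 1) - n m‖ + ‖n m‖ := by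
        have := norm_add_le (n (m + 1) - n m) (n m)
        simpa using this
      push_cast
      linarith
  -- the difference
  have key : ζ g - (1 / 2) * ∑ j ∈ Finset.range M, B (F (p j) - F 1) (F (p (j + 1)) - F (p j))
      = (∑ j ∈ Finset.range M, ζ (c j))
        - ((∑ j ∈ Finset.range M, B (D j - F 1) (F (p (j + 1)) - F (p j)))
          + B (n M) (D M) - ∑ j ∈ Finset.range M, B (n (j + 1) - n j) (D (j + 1))) / 2 := by
    have h1 := abel B n D M
    rw [hn0] at h1
    simp only [map_zero, LinearMap.zero_apply, sub_zero] at h1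
    have h2 : ∑ j ∈ Finset.range M, B (F (p j) - F 1) (F (p (j + 1)) - F (p j))
        = (∑ j ∈ Finset.range M, B (n j) (n (j + 1) - n j))
          + (∑ j ∈ Finset.range M, B (n j) (D (j + 1) - D j))
          + ∑ j ∈ Finset.range M, B (D j - F 1) (F (p (j + 1)) - F (p j)) := by
      rw [← Finset.sum_add_distrib, ← Finset.sum_add_distrib]
      refine Finset.sum_congr rfl fun j _ => ?_
      rw [hFj j, hFj (j + 1)]
      simp only [map_sub, map_add, LinearMap.sub_apply, LinearMap.add_apply]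
      ring
    rw [h2, hζg, Finset.sum_add_distrib, ← Finset.sum_div, h1]
    ring
  rw [key]
  have b1 : |∑ j ∈ Finset.range M, ζ (c j)| ≤ M * Cz := by
    refine (Finset.abs_sum_le_sum_abs _ _).trans ?_
    refine (Finset.sum_le_sum fun j hj => (hcb j (Finset.mem_range.1 hj)).1).trans ?_
    simp
  have b2 : |∑ j ∈ Finset.range M, B (D j - F 1) (F (p (j + 1)) - F (p j))|
      ≤ M * (CB * (CD + ‖F 1‖) * (Cz + 2 * CD)) := by
    refine (Finset.abs_sum_le_sum_abs _ _).trans ?_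
    have : ∀ j ∈ Finset.range M, |B (D j - F 1) (F (p (j + 1)) - F (p j))|
        ≤ CB * (CD + ‖F 1‖) * (Cz + 2 * CD) := by
      intro j hj
      have hj' := (hcb j (Finset.mem_range.1 hj)).2
      have e1 : ‖D j - F 1‖ ≤ CD + ‖F 1‖ := (norm_sub_le _ _).trans (by
        have := hCD (p j)
        simp only [hDd]
        linarith)
      have e2 : ‖F (p (j + 1)) - F (p j)‖ ≤ Cz + 2 * CD := by
        have e3 : F (p (j + 1)) - F (p j) = (n (j + 1) - n j) + (D (j + 1) - D j) := by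
          rw [hFj j, hFj (j + 1)]; abel
        rw [e3]
        refine (norm_add_le _ _).trans ?_
        have e4 := norm_sub_le (D (j + 1)) (D j)
        have e5 := hCD (p j)
        have e6 := hCD (p (j + 1))
        simp only [hDd] at e4 ⊢
        linarith
      refine (hCB _ _).trans ?_
      have e7 : CB * ‖D j - F 1‖ ≤ CB * (CD + ‖F 1‖) := mul_le_mul_of_nonneg_left e1 hCB0
      exact mul_le_mul e7 e2 (norm_nonneg _) (by positivity)
    refine (Finset.sum_le_sum this).trans ?_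
    simp
  have b3 : |B (n M) (D M)| ≤ M * (CB * Cz * CD) := by
    refine (hCB _ _).trans ?_
    have e1 := hnM M le_rfl
    have e2 : ‖D M‖ ≤ CD := hCD (p M)
    have e3 : CB * ‖n M‖ ≤ CB * (M * Cz) := mul_le_mul_of_nonneg_left e1 hCB0
    calc CB * ‖n M‖ * ‖D M‖ ≤ CB * (M * Cz) * CD :=
          mul_le_mul e3 e2 (norm_nonneg _) (by positivity)
      _ = _ := by ring
  have b4 : |∑ j ∈ Finset.range M, B (n (j + 1) - n j) (D (j + 1))| ≤ M * (CB * Cz * CD) := by
    refine (Finset.abs_sum_le_sum_abs _ _).trans ?_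
    have : ∀ j ∈ Finset.range M, |B (n (j + 1) - n j) (D (j + 1))| ≤ CB * Cz * CD := by
      intro j hj
      refine (hCB _ _).trans ?_
      have e1 := (hcb j (Finset.mem_range.1 hj)).2
      have e2 : ‖D (j + 1)‖ ≤ CD := hCD (p (j + 1))
      have e3 := mul_le_mul_of_nonneg_left e1 hCB0
      exact mul_le_mul e3 e2 (norm_nonneg _) (by positivity)
    refine (Finset.sum_le_sum this).trans ?_
    simp
  rw [abs_le] at b1 b2 b3 b4 ⊢
  constructor <;> nlinarith [b1.1, b1.2, b2.1, b2.2, b3.1, b3.2, b4.1, b4.2]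

end Pool.Agent.Helper50.HB
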